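import Pool.Agent.Lib.MP_d55432_al.G2.H5.AutA
import Mathlib.LinearAlgebra.Semisimple

/-!
# G2, row AUT: every automorphism of `g2` is a conjugation
-/

namespace Pool.Agent.Lib.MP_d55432_al.G2.H5

open Matrix LieAlgebra Module

attribute [local instance 100] LieRing.ofAssociativeRing

section field

variable {K : Type*} [Field K]

theorem e_lie (φ : g2 K ≃ₗ⁅K⁆ g2 K) (x y : g2 K) : φ ⁅x, y⁆ = ⁅φ x, φ y⁆ := LieEquiv.map_lie φ x y

theorem e_smul (φ : g2 K ≃ₗ⁅K⁆ g2 K) (c : K) (x : g2 K) : φ (c • x) = c • φ x :=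
  φ.toLinearEquiv.map_smul c x

theorem e_zero (φ : g2 K ≃ₗ⁅K⁆ g2 K) : φ 0 = 0 := map_zero φ.toLinearEquiv

theorem e_sum (φ : g2 K ≃ₗ⁅K⁆ g2 K) {ι : Type*} (s : Finset ι) (f : ι → g2 K) :
    φ (∑ i ∈ s, f i) = ∑ i ∈ s, φ (f i) := map_sum φ.toLinearEquiv f s

theorem e_inj (φ : g2 K ≃ₗ⁅K⁆ g2 K) {x y : g2 K} (h : φ x = φ y) : x = y := φ.injective h

theorem e_app (φ : g2 K ≃ₗ⁅K⁆ g2 K) (x : g2 K) : φ (φ.symm x) = x := LieEquiv.apply_symm_apply φ x

theorem e_symm (φ : g2 K ≃ₗ⁅K⁆ g2 K) (x : g2 K) : φ.symm (φ x) = x := LieEquiv.symm_apply_apply φ x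

/-- The element with given coordinates. -/
def el (hP : PARAM_S K) (f : Fin 14 → K) : g2 K := ⟨gM f, (hP _).2 ⟨f, rfl⟩⟩

theorem exists_el (hP : PARAM_S K) (X : g2 K) : ∃ f, X = el hP f := by
  obtain ⟨f, hf⟩ := (hP X.1).1 X.2
  exact ⟨f, Subtype.ext hf⟩

theorem el_inj (hP : PARAM_S K) {f g : Fin 14 → K} (h : el hP f = el hP g) : f = g :=
  gM_inj (congrArg Subtype.val h)

theorem el_smul (hP : PARAM_S K) (c : K) (f : Fin 14 → K) : el hP (c • f) = c • el hP f :=
  Subtype.ext (gM_smul c f)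

theorem el_add (hP : PARAM_S K) (f g : Fin 14 → K) : el hP (f + g) = el hP f + el hP g :=
  Subtype.ext (gM_add f g)

theorem el_zero (hP : PARAM_S K) : el hP (0 : Fin 14 → K) = 0 := by
  have := el_smul hP 0 (0 : Fin 14 → K)
  simpa using this

/-- Basis vectors. -/
def E (hP : PARAM_S K) (i : Fin 14) : g2 K := el hP (Pi.single i 1)

theorem E_ne (hP : PARAM_S K) (i : Fin 14) : E hP i ≠ 0 := by
  intro h
  rw [← el_zero hP] at h
  have := congrFun (el_inj hP h) i
  simp at this

/-- The torus. -/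
def T (hP : PARAM_S K) (l m : K) : g2 K :=
  el hP ![l, m, 0, 0, 0, 0, 0, 0, 0, 0, 0, 0, 0, 0]

theorem T_coe (hP : PARAM_S K) (l m : K) : (T hP l m).1 = TT l m := (TT_eq l m).symm

theorem T_lie (hP : PARAM_S K) (l m : K) (f : Fin 14 → K) :
    ⁅T hP l m, el hP f⁆ = el hP (fun i => rho l m i * f i) := by
  apply Subtype.ext
  rw [LieSubalgebra.coe_bracket, LieRing.of_associative_ring_bracket, T_coe]
  exact TT_lie l m f

theorem T_E (hP : PARAM_S K) (l m : K) (i : Fin 14) :
    ⁅T hP l m, E hP i⁆ = rho l m i • E hP i := by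
  unfold E
  rw [T_lie, ← el_smul]
  congr 1
  funext j
  by_cases h : j = i
  · subst h; simp
  · simp [h]

theorem rho_of_eig (hP : PARAM_S K) (l m c : K) (Y : g2 K) (hY : Y ≠ 0)
    (h : ⁅T hP l m, Y⁆ = c • Y) : ∃ j, rho l m j = c := by
  obtain ⟨f, rfl⟩ := exists_el hP Y
  rw [T_lie, ← el_smul] at h
  have hf := el_inj hP h
  have : ∃ j, f j ≠ 0 := by
    by_contra hc
    push Not at hc
    apply hY
    rw [← el_zero hP]
    congr 1
    funext j
    exact hc j
  obtain ⟨j, hj⟩ := this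
  refine ⟨j, ?_⟩
  have := congrFun hf j
  simp only [Pi.smul_apply, smul_eq_mul] at this
  exact mul_right_cancel₀ hj this

theorem rho_pull (hP : PARAM_S K) (χ : g2 K ≃ₗ⁅K⁆ g2 K) (l m l' m' : K)
    (h : χ (T hP l m) = T hP l' m') (i : Fin 14) : ∃ j, rho l m j = rho l' m' i := by
  apply rho_of_eig hP l m _ (χ.symm (E hP i))
  · intro h0
    apply E_ne hP i
    rw [← e_app χ (E hP i), h0, e_zero]
  · apply e_inj χ
    rw [e_lie, h, e_app, T_E, e_smul, e_app]

theorem invariants [CharZero K] (hP : PARAM_S K) (χ : g2 K ≃ₗ⁅K⁆ g2 K) (l' m' : K)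
    (h : χ (T hP 1 3) = T hP l' m') :
    (1 : K) ^ 2 + 3 ^ 2 + (1 + 3) ^ 2 = l' ^ 2 + m' ^ 2 + (l' + m') ^ 2 ∧
    ((1 : K) * 3 * (1 + 3)) ^ 2 = (l' * m' * (l' + m')) ^ 2 := by
  have h1 := rho_pull hP χ 1 3 l' m' h
  have h2 : ∀ i, ∃ j, rho l' m' j = rho 1 3 i := by
    apply rho_pull hP χ.symm
    rw [← h, e_symm]
  obtain ⟨p, hp⟩ := h1 8
  obtain ⟨q, hq⟩ := h1 9
  have e13 : ∀ i, rho (1 : K) 3 i = ((rho (1 : ℤ) 3 i : ℤ) : K) := by
    intro i
    have := rho_cast (A := K) 1 3 i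
    simpa using this
  have hp' : l' = ((rho (1 : ℤ) 3 p : ℤ) : K) := by
    rw [← e13, hp]; simp [rho]
  have hq' : m' = ((rho (1 : ℤ) 3 q : ℤ) : K) := by
    rw [← e13, hq]; simp [rho]
  have hc := int_check p q (by
    intro i
    obtain ⟨j, hj⟩ := h2 i
    refine ⟨j, ?_⟩
    have : ((rho (rho (1 : ℤ) 3 p) (rho (1 : ℤ) 3 q) j : ℤ) : K) = ((rho (1 : ℤ) 3 i : ℤ) : K) := by
      rw [← rho_cast, ← hp', ← hq', hj, e13]
    exact_mod_cast this)
  rw [hp', hq']
  exact ⟨by exact_mod_cast hc.1, by exact_mod_cast hc.2⟩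

theorem el_sum (hP : PARAM_S K) (f : Fin 14 → K) : el hP f = ∑ j, f j • E hP j := by
  let L : (Fin 14 → K) →ₗ[K] g2 K :=
    { toFun := el hP, map_add' := el_add hP, map_smul' := el_smul hP }
  have h : f = ∑ j, f j • (Pi.single j (1 : K) : Fin 14 → K) := by
    funext i
    simp [Finset.sum_apply, Pi.single_apply]
  change L f = _
  conv_lhs => rw [h]
  rw [map_sum]
  refine Finset.sum_congr rfl fun j _ => ?_
  rw [LinearMap.map_smul]
  rfl

/-- `ad (φ X₀)` is semisimple. -/
theorem ad_ss [CharZero K] (hP : PARAM_S K) (φ : g2 K ≃ₗ⁅K⁆ g2 K) :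
    (LieAlgebra.ad K (g2 K) (φ (T hP 1 3))).IsSemisimple := by
  classical
  let z : Fin 13 → ℤ := ![0, 1, -1, 2, -2, 3, -3, 4, -4, 5, -5, 7, -7]
  have hz : Function.Injective z := by decide
  have hzr : ∀ j : Fin 14, ∃ i : Fin 13, z i = rho (1 : ℤ) 3 j := by decide
  let p : Polynomial K := ∏ i, (Polynomial.X - Polynomial.C ((z i : ℤ) : K))
  have hp : Squarefree p := by
    apply Polynomial.Separable.squarefree
    rw [Polynomial.separable_prod_X_sub_C_iff]
    intro a b h
    apply hz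
    have h' : ((z a : ℤ) : K) = ((z b : ℤ) : K) := h
    exact_mod_cast h'
  apply Module.End.isSemisimple_of_squarefree_aeval_eq_zero hp
  ext1 Y
  obtain ⟨f, hf⟩ := exists_el hP (φ.symm Y)
  have hY : Y = ∑ j, f j • φ (E hP j) := by
    rw [← e_app φ Y, hf, el_sum, e_sum]
    exact Finset.sum_congr rfl fun j _ => e_smul φ _ _
  rw [hY, map_sum]
  change _ = (0 : g2 K)
  apply Finset.sum_eq_zero
  intro j _
  rw [LinearMap.map_smul]
  have hev : Module.End.HasEigenvector (LieAlgebra.ad K (g2 K) (φ (T hP 1 3)))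
      ((rho (1 : ℤ) 3 j : ℤ) : K) (φ (E hP j)) := by
    rw [Module.End.hasEigenvector_iff, Module.End.mem_eigenspace_iff]
    constructor
    · rw [LieAlgebra.ad_apply, ← e_lie, T_E, e_smul]
      have := rho_cast (A := K) 1 3 j
      simp only [Int.cast_one, Int.cast_ofNat] at this
      rw [← this]
    · intro h0
      apply E_ne hP j
      exact e_inj φ (by rw [h0, e_zero])
  rw [Module.End.aeval_apply_of_hasEigenvector hev]
  have : Polynomial.eval ((rho (1 : ℤ) 3 j : ℤ) : K) p = 0 := by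
    obtain ⟨i, hi⟩ := hzr j
    rw [Polynomial.eval_prod]
    apply Finset.prod_eq_zero (Finset.mem_univ i)
    rw [← hi]
    simp
  rw [this, zero_smul, smul_zero]

/-- An automorphism fixing `X₀` acts on root vectors by scalars. -/
theorem root_scalar [CharZero K] (hP : PARAM_S K) (ψ : g2 K ≃ₗ⁅K⁆ g2 K)
    (h : ψ (T hP 1 3) = T hP 1 3) (i : Fin 14) (hi : 2 ≤ i) :
    ∃ c : K, c ≠ 0 ∧ ψ (E hP i) = c • E hP i := by
  obtain ⟨f, hf⟩ := exists_el hP (ψ (E hP i))
  have h1 : ⁅T hP 1 3, ψ (E hP i)⁆ = rho (1 : K) 3 i • ψ (E hP i) := by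
    conv_lhs => rw [← h]
    rw [← e_lie, T_E, e_smul]
  rw [hf, T_lie, ← el_smul] at h1
  have h2 := el_inj hP h1
  have h3 : ∀ j, j ≠ i → f j = 0 := by
    intro j hj
    by_contra hc
    have h4 := congrFun h2 j
    simp only [Pi.smul_apply, smul_eq_mul] at h4
    have h5 := mul_right_cancel₀ hc h4
    apply hj
    apply simple_check i j hi
    have e13 : ∀ i, rho (1 : K) 3 i = ((rho (1 : ℤ) 3 i : ℤ) : K) := by
      intro i
      have := rho_cast (A := K) 1 3 i
      simpa using this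
    rw [e13, e13] at h5
    exact_mod_cast h5
  have h6 : f = f i • (Pi.single i (1 : K) : Fin 14 → K) := by
    funext j
    by_cases hj : j = i
    · subst hj; simp
    · simp [hj, h3 j hj]
  refine ⟨f i, ?_, ?_⟩
  · intro h0
    rw [h0, zero_smul] at h6
    rw [h6, el_zero] at hf
    apply E_ne hP i
    exact e_inj ψ (by rw [hf, e_zero])
  · rw [hf, h6, el_smul]
    simp [E]

/-- An automorphism fixing `X₀` fixes the torus. -/
theorem torus_fix [CharZero K] (hP : PARAM_S K) (ψ : g2 K ≃ₗ⁅K⁆ g2 K)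
    (h : ψ (T hP 1 3) = T hP 1 3) (a b : K) : ψ (T hP a b) = T hP a b := by
  obtain ⟨f, hf⟩ := exists_el hP (ψ (T hP a b))
  have h0 : ⁅T hP 1 3, T hP a b⁆ = 0 := by
    conv_lhs => enter [2]; unfold T
    rw [T_lie, ← el_zero hP]
    congr 1
    funext i
    fin_cases i <;> simp [rho]
  have h1 : ⁅T hP 1 3, ψ (T hP a b)⁆ = 0 := by
    conv_lhs => rw [← h]
    rw [← e_lie, h0, e_zero]
  rw [hf, T_lie, ← el_zero hP] at h1
  have h2 := el_inj hP h1
  have h3 : ∀ j : Fin 14, 2 ≤ j → f j = 0 := by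
    intro j hj
    have h4 := congrFun h2 j
    simp only [Pi.zero_apply, mul_eq_zero] at h4
    rcases h4 with h4 | h4
    · exfalso
      have e13 : rho (1 : K) 3 j = ((rho (1 : ℤ) 3 j : ℤ) : K) := by
        have := rho_cast (A := K) 1 3 j
        simpa using this
      rw [e13] at h4
      have h5 : rho (1 : ℤ) 3 j = 0 := by exact_mod_cast h4
      have : ∀ j : Fin 14, 2 ≤ j → rho (1 : ℤ) 3 j ≠ 0 := by decide
      exact this j hj h5
    · exact h4
  have h6 : f = ![f 0, f 1, 0, 0, 0, 0, 0, 0, 0, 0, 0, 0, 0, 0] := by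
    funext j
    by_cases hj : 2 ≤ j
    · rw [h3 j hj]
      revert hj
      fin_cases j <;> simp <;> decide
    · have : j = 0 ∨ j = 1 := by revert hj; revert j; decide
      rcases this with rfl | rfl <;> simp
  have h7 : ψ (T hP a b) = T hP (f 0) (f 1) := by rw [hf, h6]; simp [T]
  have key : ∀ i : Fin 14, 2 ≤ i → rho (f 0) (f 1) i = rho a b i := by
    intro i hi
    obtain ⟨c, hc, hci⟩ := root_scalar hP ψ h i hi
    have e1 : ⁅ψ (T hP a b), ψ (E hP i)⁆ = rho a b i • ψ (E hP i) := by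
      rw [← e_lie, T_E, e_smul]
    rw [h7, hci, lie_smul, T_E, smul_smul, smul_smul] at e1
    have e2 : (c * rho (f 0) (f 1) i - rho a b i * c) • E hP i = 0 := by
      rw [sub_smul, e1, sub_self]
    rcases smul_eq_zero.1 e2 with e3 | e3
    · have : c * (rho (f 0) (f 1) i - rho a b i) = 0 := by linear_combination e3
      rcases mul_eq_zero.1 this with h' | h'
      · exact absurd h' hc
      · exact sub_eq_zero.1 h'
    · exact absurd e3 (E_ne hP i)
  have k8 := key 8 (by decide)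
  have k9 := key 9 (by decide)
  simp only [rho] at k8 k9
  rw [h7]
  have a1 : f 0 = a := by simpa using k8
  have a2 : f 1 = b := by simpa using k9
  rw [a1, a2]

/-! ### The torus of the group -/

/-- The torus element with parameters `a, b` (and inverses `a', b'`). -/
def tor (a b a' b' : K) : M7 K := Matrix.diagonal ![1, a, b, a' * b', a', b', a * b]

theorem tor_isG {a b a' b' : K} (ha : a * a' = 1) (hb : b * b' = 1) :
    IsG (tor a b a' b') (tor a' b' a b) := by
  refine ⟨?_, ?_, fun x y => ?_⟩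
  · rw [tor, tor, Matrix.diagonal_mul_diagonal, ← Matrix.diagonal_one]
    congr 1
    funext i
    fin_cases i <;> simp <;> first
      | exact ha
      | exact hb
      | linear_combination ha
      | linear_combination hb
      | linear_combination b * b' * ha + hb
  · rw [tor, tor, Matrix.diagonal_mul_diagonal, ← Matrix.diagonal_one]
    congr 1
    funext i
    fin_cases i <;> simp <;> first
      | linear_combination ha
      | linear_combination hb
      | linear_combination b * b' * ha + hb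
  · funext i
    rw [tor]
    simp only [Matrix.mulVec_diagonal]
    fin_cases i
    · simp [br, Matrix.mulVec_diagonal]
      linear_combination (x 4 * y 1 - x 1 * y 4) * ha + (x 5 * y 2 - x 2 * y 5) * hb +
        (x 6 * y 3 - x 3 * y 6) * (b * b' * ha + hb)
    · simp [br, Matrix.mulVec_diagonal]
      linear_combination 2 * a * (x 5 * y 6 - x 6 * y 5) * hb
    · simp [br, Matrix.mulVec_diagonal]
      linear_combination 2 * b * (x 6 * y 4 - x 4 * y 6) * ha
    · simp [br, Matrix.mulVec_diagonal]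
      ring
    · simp [br, Matrix.mulVec_diagonal]
      linear_combination -2 * a' * (x 2 * y 3 - x 3 * y 2) * hb
    · simp [br, Matrix.mulVec_diagonal]
      linear_combination -2 * b' * (x 3 * y 1 - x 1 * y 3) * ha
    · simp [br, Matrix.mulVec_diagonal]
      ring

/-- The characters. -/
def chr (a b a' b' : K) : Fin 14 → K :=
  ![1, 1, a * b', a * (a * b), a' * b, b * (a * b), a' * (a' * b'), b' * (a' * b'), a, b, a' * b',
    a', b', a * b]

theorem tor_conj {a b a' b' : K} (ha : a * a' = 1) (hb : b * b' = 1) (f : Fin 14 → K) :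
    tor a b a' b' * gM f * tor a' b' a b = gM (fun i => chr a b a' b' i * f i) := by
  have ha0 : a ≠ 0 := left_ne_zero_of_mul_eq_one ha
  have hb0 : b ≠ 0 := left_ne_zero_of_mul_eq_one hb
  obtain rfl : a' = a⁻¹ := eq_inv_of_mul_eq_one_right ha
  obtain rfl : b' = b⁻¹ := eq_inv_of_mul_eq_one_right hb
  ext i j
  rw [tor, tor, Matrix.mul_diagonal, Matrix.diagonal_mul]
  fin_cases i <;> fin_cases j <;> simp [gM, chr, mul_assoc, mul_comm, mul_left_comm] <;>
    (try field_simp) <;> (try ring_nf) <;> (try simp)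

/-- Relations between the scalars. -/
theorem rel (hP : PARAM_S K) (ψ : g2 K ≃ₗ⁅K⁆ g2 K) {i j k : Fin 14} {n : ℤ} {ci cj ck : K}
    (h : gM (Pi.single i (1 : ℤ)) * gM (Pi.single j (1 : ℤ)) -
      gM (Pi.single j (1 : ℤ)) * gM (Pi.single i (1 : ℤ)) = gM (Pi.single k n))
    (hn : (n : K) ≠ 0) (hi : ψ (E hP i) = ci • E hP i) (hj : ψ (E hP j) = cj • E hP j)
    (hk : ψ (E hP k) = ck • E hP k) : ck = ci * cj := by
  have h1 : ⁅E hP i, E hP j⁆ = (n : K) • E hP k := by
    apply Subtype.ext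
    rw [LieSubalgebra.coe_bracket, LieRing.of_associative_ring_bracket]
    change gM _ * gM _ - gM _ * gM _ = (n : K) • gM _
    rw [basis_lie i j k n h, ← gM_smul]
    congr 1
    funext l
    by_cases hl : l = k
    · subst hl; simp
    · simp [hl]
  have h2 : ψ ⁅E hP i, E hP j⁆ = (n : K) • (ck • E hP k) := by rw [h1, e_smul, hk]
  rw [e_lie, hi, hj, smul_lie, lie_smul, h1] at h2
  have h3 : ((n : K) * (ci * cj - ck)) • E hP k = 0 := by
    have : ((n : K) * (ci * cj - ck)) • E hP k =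
        ci • cj • (n : K) • E hP k - (n : K) • (ck • E hP k) := by
      simp only [smul_smul, ← sub_smul]
      congr 1
      ring
    rw [this, h2, sub_self]
  rcases smul_eq_zero.1 h3 with h4 | h4
  · rcases mul_eq_zero.1 h4 with h5 | h5
    · exact absurd h5 hn
    · exact (sub_eq_zero.1 h5).symm
  · exact absurd h4 (E_ne hP k)

/-- Opposite root vectors. -/
theorem rel_opp [CharZero K] (hP : PARAM_S K) (ψ : g2 K ≃ₗ⁅K⁆ g2 K)
    (h0 : ψ (T hP 1 3) = T hP 1 3) {i j : Fin 14} {n m : ℤ} {ci cj : K}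
    (h : gM (Pi.single i (1 : ℤ)) * gM (Pi.single j (1 : ℤ)) -
      gM (Pi.single j (1 : ℤ)) * gM (Pi.single i (1 : ℤ)) =
        gM ![n, m, 0, 0, 0, 0, 0, 0, 0, 0, 0, 0, 0, 0])
    (hn : n ≠ 0) (hi : ψ (E hP i) = ci • E hP i) (hj : ψ (E hP j) = cj • E hP j) :
    ci * cj = 1 := by
  have h1 : ⁅E hP i, E hP j⁆ = T hP (n : K) (m : K) := by
    apply Subtype.ext
    rw [LieSubalgebra.coe_bracket, LieRing.of_associative_ring_bracket]
    change gM _ * gM _ - gM _ * gM _ = gM _
    have := lie_cast (A := K) _ _ _ h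
    simp only [single_cast, Int.cast_one] at this
    rw [this]
    congr 1
    funext l
    fin_cases l <;> simp
  have h2 : ψ ⁅E hP i, E hP j⁆ = T hP (n : K) (m : K) := by rw [h1, torus_fix hP ψ h0]
  rw [e_lie, hi, hj, smul_lie, lie_smul, h1, smul_smul] at h2
  unfold T at h2
  rw [← el_smul] at h2
  have h3 := congrFun (el_inj hP h2) 0
  simp only [Pi.smul_apply, smul_eq_mul, Matrix.cons_val_zero] at h3
  have hn' : (n : K) ≠ 0 := by exact_mod_cast hn
  exact mul_right_cancel₀ hn' (by rw [h3, one_mul])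

/-- An automorphism fixing `X₀` is a conjugation by a torus element. -/
theorem aut_fix [CharZero K] (hP : PARAM_S K) (ψ : g2 K ≃ₗ⁅K⁆ g2 K)
    (h0 : ψ (T hP 1 3) = T hP 1 3) :
    ∃ (g h : M7 K) (_ : IsG g h), ∀ X : g2 K, (ψ X).1 = g * X.1 * h := by
  have hr := root_scalar hP ψ h0
  choose! c hc0 hc using hr
  have r11 := rel_opp hP ψ h0 b_8_11 (by norm_num) (hc 8 (by decide)) (hc 11 (by decide))
  have r12 := rel_opp hP ψ h0 b_9_12 (by norm_num) (hc 9 (by decide)) (hc 12 (by decide))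
  have r10 := rel_opp hP ψ h0 b_10_13 (by norm_num) (hc 10 (by decide)) (hc 13 (by decide))
  have n3 : ((-3 : ℤ) : K) ≠ 0 := by norm_num
  have r13 := rel hP ψ b_8_9 (by norm_num) (hc 8 (by decide)) (hc 9 (by decide)) (hc 13 (by decide))
  have r2 := rel hP ψ b_8_12 n3 (hc 8 (by decide)) (hc 12 (by decide)) (hc 2 (by decide))
  have r3 := rel hP ψ b_8_13 n3 (hc 8 (by decide)) (hc 13 (by decide)) (hc 3 (by decide))
  have r4 := rel hP ψ b_9_11 n3 (hc 9 (by decide)) (hc 11 (by decide)) (hc 4 (by decide))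
  have r5 := rel hP ψ b_9_13 n3 (hc 9 (by decide)) (hc 13 (by decide)) (hc 5 (by decide))
  have r6 := rel hP ψ b_10_11 n3 (hc 10 (by decide)) (hc 11 (by decide)) (hc 6 (by decide))
  have r7 := rel hP ψ b_10_12 n3 (hc 10 (by decide)) (hc 12 (by decide)) (hc 7 (by decide))
  have hG := tor_isG (K := K) r11 r12
  refine ⟨_, _, hG, fun X => ?_⟩
  have r10' : c 10 = c 11 * c 12 := by
    have : c 8 * c 9 ≠ 0 := mul_ne_zero (hc0 8 (by decide)) (hc0 9 (by decide))
    apply mul_right_cancel₀ this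
    rw [r13] at r10
    rw [r10]
    linear_combination -(c 9 * c 12) * r11 - r12
  have hchr : ∀ i : Fin 14, 2 ≤ i → chr (c 8) (c 9) (c 11) (c 12) i = c i := by
    intro i hi
    fin_cases i
    · exact absurd hi (by decide)
    · exact absurd hi (by decide)
    · simp [chr, r2]
    · simp [chr, r3, r13]
    · simp [chr, r4, mul_comm]
    · simp [chr, r5, r13]
    · simp [chr, r6, r10', mul_comm]
    · simp [chr, r7, r10', mul_comm, mul_left_comm]
    · simp [chr]
    · simp [chr]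
    · simp [chr, r10']
    · simp [chr]
    · simp [chr]
    · simp [chr, r13]
  have hE : ∀ i : Fin 14, (ψ (E hP i)).1 = (el hP (fun j => chr (c 8) (c 9) (c 11) (c 12) j *
      (Pi.single i (1 : K) : Fin 14 → K) j)).1 := by
    intro i
    by_cases hi : 2 ≤ i
    · rw [hc i hi]
      unfold E
      rw [← el_smul]
      congr 2
      funext j
      by_cases hj : j = i
      · subst hj; simp [hchr j hi]
      · simp [hj]
    · have h01 : i = 0 ∨ i = 1 := by revert hi; revert i; decide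
      rcases h01 with rfl | rfl
      · have e1 : E hP (0 : Fin 14) = T hP (1 : K) 0 := by
          unfold E T
          congr 1
          funext j
          fin_cases j <;> simp [Pi.single_apply]
        rw [e1, torus_fix hP ψ h0]
        unfold T
        congr 2
        funext j
        fin_cases j <;> simp [chr]
      · have e1 : E hP (1 : Fin 14) = T hP (0 : K) 1 := by
          unfold E T
          congr 1
          funext j
          fin_cases j <;> simp [Pi.single_apply]
        rw [e1, torus_fix hP ψ h0]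
        unfold T
        congr 2
        funext j
        fin_cases j <;> simp [chr]
  obtain ⟨f, rfl⟩ := exists_el hP X
  have h1 : ψ (el hP f) = conjG _ _ hG (el hP f) := by
    rw [el_sum, e_sum, e_sum]
    refine Finset.sum_congr rfl fun j _ => ?_
    rw [e_smul, e_smul]
    congr 1
    apply Subtype.ext
    rw [hE, conjG_coe]
    exact (tor_conj r11 r12 _).symm
  rw [h1, conjG_coe]

/-- **AUT**: every automorphism of `g2` is conjugation by an automorphism of the octonions. -/
theorem aut (K : Type*) [Field K] [CharZero K] [IsAlgClosed K] (hP : PARAM_S K) (hS : SEMI_S K)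
    (hD : DIAG_S K) (hW : WEYL_S K) : AUT_S K := by
  intro φ
  obtain ⟨l', m', g, h, H, hX⟩ := hD _ (φ (T hP 1 3)).2 (hS _ (ad_ss hP φ))
  have h1 : φ (T hP 1 3) = conjG g h H (T hP l' m') := by
    apply Subtype.ext
    rw [conjG_coe, T_coe, hX]
  let χ : g2 K ≃ₗ⁅K⁆ g2 K := φ.trans (conjG g h H).symm
  have h2 : χ (T hP 1 3) = T hP l' m' := by
    change (conjG g h H).symm (φ (T hP 1 3)) = _
    rw [h1, e_symm]
  obtain ⟨i1, i2⟩ := invariants hP χ l' m' h2
  obtain ⟨g', h', H', hX'⟩ := hW 1 3 l' m' i1 i2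
  have h3 : T hP l' m' = conjG g' h' H' (T hP 1 3) := by
    apply Subtype.ext
    rw [conjG_coe, T_coe, T_coe, hX']
  let ψ : g2 K ≃ₗ⁅K⁆ g2 K := χ.trans (conjG g' h' H').symm
  have h4 : ψ (T hP 1 3) = T hP 1 3 := by
    change (conjG g' h' H').symm (χ (T hP 1 3)) = _
    rw [h2, h3, e_symm]
  obtain ⟨g'', h'', H'', h5⟩ := aut_fix hP ψ h4
  refine ⟨g * (g' * g''), (h'' * h') * h, H.mul (H'.mul H''), fun X => ?_⟩
  have h6 : φ X = conjG g h H (conjG g' h' H' (ψ X)) := by
    change φ X = conjG g h H (conjG g' h' H' ((conjG g' h' H').symm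
      ((conjG g h H).symm (φ X))))
    rw [e_app, e_app]
  rw [h6]
  apply Subtype.ext
  rw [conjG_coe, conjG_coe, conjG_coe, h5]
  simp only [Matrix.mul_assoc]

end field

end Pool.Agent.Lib.MP_d55432_al.G2.H5
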