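import Pool.Agent.Lib.MP_d55432_al.G2.Iface

/-!
# G2, row AUT: coordinates
-/

namespace Pool.Agent.Lib.MP_d55432_al.G2.H5

open Matrix LieAlgebra

attribute [local instance 100] LieRing.ofAssociativeRing

section ring

variable {A : Type*} [CommRing A]

/-- The roots (and two zeros) as linear forms in the torus coordinates. -/
def rho (l m : A) : Fin 14 → A :=
  ![0, 0, l - m, 2 * l + m, m - l, l + 2 * m, -(2 * l + m), -(l + 2 * m), l, m, -(l + m), -l, -m,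
    l + m]

theorem TT_lie (l m : A) (f : Fin 14 → A) : TT l m * gM f - gM f * TT l m =
    gM (fun i => rho l m i * f i) := by
  ext i j
  rw [Matrix.sub_apply, TT, Matrix.diagonal_mul, Matrix.mul_diagonal]
  fin_cases i <;> fin_cases j <;> simp [gM, rho] <;> ring

theorem gM_inj {f g : Fin 14 → A} (h : gM f = gM g) : f = g := by
  have e : ∀ i j, gM f i j = gM g i j := fun i j => by rw [h]
  funext i
  fin_cases i
  · simpa [gM] using e 1 1
  · simpa [gM] using e 2 2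
  · simpa [gM] using e 1 2
  · simpa [gM] using e 1 3
  · simpa [gM] using e 2 1
  · simpa [gM] using e 2 3
  · simpa [gM] using e 3 1
  · simpa [gM] using e 3 2
  · simpa [gM] using e 0 4
  · simpa [gM] using e 0 5
  · simpa [gM] using e 0 6
  · simpa [gM] using e 0 1
  · simpa [gM] using e 0 2
  · simpa [gM] using e 0 3

theorem gM_add (f g : Fin 14 → A) : gM (f + g) = gM f + gM g := by
  ext i j
  fin_cases i <;> fin_cases j <;> simp [gM] <;> ring

theorem gM_smul (c : A) (f : Fin 14 → A) : gM (c • f) = c • gM f := by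
  ext i j
  fin_cases i <;> fin_cases j <;> simp [gM] <;> ring

theorem gM_cast (f : Fin 14 → ℤ) : (gM f).map (Int.castRingHom A) = gM (fun i => (f i : A)) := by
  ext i j
  fin_cases i <;> fin_cases j <;> simp [gM]

/-- Transfer of brackets from the integers. -/
theorem lie_cast (f g k : Fin 14 → ℤ) (h : gM f * gM g - gM g * gM f = gM k) :
    gM (fun i => (f i : A)) * gM (fun i => (g i : A)) -
      gM (fun i => (g i : A)) * gM (fun i => (f i : A)) = gM (fun i => (k i : A)) := by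
  rw [← gM_cast, ← gM_cast, ← gM_cast, ← h]
  change _ = (Int.castRingHom A).mapMatrix _
  rw [map_sub, map_mul, map_mul]
  rfl

theorem single_cast (i : Fin 14) (c : ℤ) :
    (fun j => ((Pi.single i c : Fin 14 → ℤ) j : A)) = Pi.single i (c : A) := by
  funext j
  by_cases h : j = i
  · subst h; simp
  · simp [h]

/-- Brackets of basis vectors. -/
theorem basis_lie (i j k : Fin 14) (c : ℤ)
    (h : gM (Pi.single i (1 : ℤ)) * gM (Pi.single j (1 : ℤ)) -
      gM (Pi.single j (1 : ℤ)) * gM (Pi.single i (1 : ℤ)) = gM (Pi.single k c)) :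
    gM (Pi.single i (1 : A)) * gM (Pi.single j (1 : A)) -
      gM (Pi.single j (1 : A)) * gM (Pi.single i (1 : A)) = gM (Pi.single k (c : A)) := by
  have := lie_cast (A := A) _ _ _ h
  simpa only [single_cast, Int.cast_one] using this

theorem rho_cast (a b : ℤ) (j : Fin 14) : rho (a : A) (b : A) j = ((rho a b j : ℤ) : A) := by
  fin_cases j <;> simp [rho]

end ring

theorem b_8_9 : gM (Pi.single 8 (1 : ℤ)) * gM (Pi.single 9 (1 : ℤ)) -
      gM (Pi.single 9 (1 : ℤ)) * gM (Pi.single 8 (1 : ℤ)) = gM (Pi.single 13 2) := by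
  decide +kernel

theorem b_8_12 : gM (Pi.single 8 (1 : ℤ)) * gM (Pi.single 12 (1 : ℤ)) -
      gM (Pi.single 12 (1 : ℤ)) * gM (Pi.single 8 (1 : ℤ)) = gM (Pi.single 2 (-3)) := by
  decide +kernel

theorem b_8_13 : gM (Pi.single 8 (1 : ℤ)) * gM (Pi.single 13 (1 : ℤ)) -
      gM (Pi.single 13 (1 : ℤ)) * gM (Pi.single 8 (1 : ℤ)) = gM (Pi.single 3 (-3)) := by
  decide +kernel

theorem b_9_11 : gM (Pi.single 9 (1 : ℤ)) * gM (Pi.single 11 (1 : ℤ)) -
      gM (Pi.single 11 (1 : ℤ)) * gM (Pi.single 9 (1 : ℤ)) = gM (Pi.single 4 (-3)) := by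
  decide +kernel

theorem b_9_13 : gM (Pi.single 9 (1 : ℤ)) * gM (Pi.single 13 (1 : ℤ)) -
      gM (Pi.single 13 (1 : ℤ)) * gM (Pi.single 9 (1 : ℤ)) = gM (Pi.single 5 (-3)) := by
  decide +kernel

theorem b_10_11 : gM (Pi.single 10 (1 : ℤ)) * gM (Pi.single 11 (1 : ℤ)) -
      gM (Pi.single 11 (1 : ℤ)) * gM (Pi.single 10 (1 : ℤ)) = gM (Pi.single 6 (-3)) := by
  decide +kernel

theorem b_10_12 : gM (Pi.single 10 (1 : ℤ)) * gM (Pi.single 12 (1 : ℤ)) -
      gM (Pi.single 12 (1 : ℤ)) * gM (Pi.single 10 (1 : ℤ)) = gM (Pi.single 7 (-3)) := by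
  decide +kernel

theorem b_8_11 : gM (Pi.single 8 (1 : ℤ)) * gM (Pi.single 11 (1 : ℤ)) -
      gM (Pi.single 11 (1 : ℤ)) * gM (Pi.single 8 (1 : ℤ)) = gM ![-2, 1, 0, 0, 0, 0, 0, 0, 0, 0, 0, 0, 0, 0] := by
  decide +kernel

theorem b_9_12 : gM (Pi.single 9 (1 : ℤ)) * gM (Pi.single 12 (1 : ℤ)) -
      gM (Pi.single 12 (1 : ℤ)) * gM (Pi.single 9 (1 : ℤ)) = gM ![1, -2, 0, 0, 0, 0, 0, 0, 0, 0, 0, 0, 0, 0] := by
  decide +kernel

theorem b_10_13 : gM (Pi.single 10 (1 : ℤ)) * gM (Pi.single 13 (1 : ℤ)) -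
      gM (Pi.single 13 (1 : ℤ)) * gM (Pi.single 10 (1 : ℤ)) = gM ![1, 1, 0, 0, 0, 0, 0, 0, 0, 0, 0, 0, 0, 0] := by
  decide +kernel

/-- The integer check: the roots of a torus element with the same eigenvalues as `TT 1 3`. -/
theorem int_check : ∀ p q : Fin 14,
    (∀ i, ∃ j, rho (rho (1 : ℤ) 3 p) (rho (1 : ℤ) 3 q) j = rho (1 : ℤ) 3 i) →
      (1 : ℤ) ^ 2 + 3 ^ 2 + (1 + 3) ^ 2 = (rho (1 : ℤ) 3 p) ^ 2 + (rho (1 : ℤ) 3 q) ^ 2 +
        (rho (1 : ℤ) 3 p + rho (1 : ℤ) 3 q) ^ 2 ∧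
      ((1 : ℤ) * 3 * (1 + 3)) ^ 2 = (rho (1 : ℤ) 3 p * rho (1 : ℤ) 3 q *
        (rho (1 : ℤ) 3 p + rho (1 : ℤ) 3 q)) ^ 2 := by
  decide +kernel

theorem simple_check : ∀ i j : Fin 14, 2 ≤ i → rho (1 : ℤ) 3 j = rho (1 : ℤ) 3 i → j = i := by
  decide +kernel

end Pool.Agent.Lib.MP_d55432_al.G2.H5
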